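import Pool.Agent.H.MP_57350d_an.D

set_option autoImplicit false
open MeasureTheory Set Filter Topology Metric
open scoped ENNReal Real

namespace Pool.Agent.Results.MP_57350d_an.Cyclic

/-- The norm of `D^p_{p-1}`, with value `⊤` when the integral diverges. -/
noncomputable def dnorm (p : ℝ) (g : ℂ → ℂ) : ℝ≥0∞ :=
  ‖g 0‖ₑ + (∫⁻ z in ball (0 : ℂ) 1,
    ENNReal.ofReal ((1 - ‖z‖) ^ (p - 1) * ‖deriv g z‖ ^ p)) ^ (1 / p)

/-- `f` is outer on the unit disc; `ψ` plays the role of `log k`. -/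
def IsOuter (f : ℂ → ℂ) : Prop :=
  ∃ (c : ℂ) (ψ : ℝ → ℝ), ‖c‖ = 1 ∧ IntervalIntegrable ψ volume 0 (2 * π) ∧
    ∀ z ∈ ball (0 : ℂ) 1, f z = c * Complex.exp ((1 / (2 * π) : ℂ) * ∫ θ in (0 : ℝ)..2 * π,
      (Complex.exp (θ * Complex.I) + z) / (Complex.exp (θ * Complex.I) - z) * (ψ θ : ℂ))

open Pool.Agent.H.MP_57350d_an

theorem result : ∀ p : ℝ, 2 < p → ∀ f : ℂ → ℂ, IsOuter f → dnorm p f < ⊤ →
    ∃ q : ℕ → Polynomial ℂ,
      Tendsto (fun n => dnorm p (fun z => (q n).eval z * f z - 1)) atTop (𝓝 0) := by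
  rintro p hp f ⟨c, ψ, hc, hψ, hf⟩ hI
  have hp0 : 0 < 1 / p := by positivity
  obtain ⟨u, hu⟩ : ∃ u : ℂ → ℝ, ∀ θ ∈ Ioc 0 (2 * π), u (circleMap 0 1 θ) = ψ θ := by
    refine ⟨fun ζ => ψ (Function.invFunOn (circleMap 0 1) (Ioc 0 (2 * π)) ζ), fun θ hθ => ?_⟩
    have : InjOn (circleMap 0 1) (Ioc 0 (2 * π)) := by
      have := injOn_circleMap_of_abs_sub_le (c := 0) (R := 1) (a := 0) (b := 2 * π) one_ne_zero
        (by rw [zero_sub, abs_neg, abs_of_pos (by positivity)])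
      rwa [uIoc_of_le (by positivity)] at this
    simp only [this.leftInvOn_invFunOn hθ]
  have hui : CircleIntegrable u 0 1 := by
    refine hψ.congr fun θ hθ => ?_
    rw [uIoc_of_le (by positivity)] at hθ
    exact (hu θ hθ).symm
  have hI' : II p (deriv f) ≠ ⊤ := by
    intro h
    have h2 : dnorm p f = ‖f 0‖ₑ + II p (deriv f) ^ (1 / p) := rfl
    rw [h2, h, ENNReal.top_rpow_of_pos hp0, add_top] at hI
    exact lt_irrefl _ hI
  obtain ⟨q, a, b⟩ := main hp.le (f := f) (c := c) (by rintro rfl; simp at hc) hui (fun z hz => by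
    rw [hf z hz, HH, Real.circleAverage_def, Complex.real_smul]
    congr 3
    · simp
    · apply intervalIntegral.integral_congr_ae
      refine Eventually.of_forall fun θ hθ => ?_
      rw [uIoc_of_le (by positivity)] at hθ
      rw [hu θ hθ]
      simp [herglotzRieszKernel, circleMap]) hI'
  refine ⟨q, ?_⟩
  have t1 := (a.sub_const 1).enorm
  have t2 := b.ennrpow_const (1 / p)
  rw [ENNReal.zero_rpow_of_pos hp0] at t2
  have t3 := t1.add t2
  rw [sub_self, enorm_zero, add_zero] at t3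
  refine t3.congr fun n => ?_
  simp [dnorm, II, deriv_sub_const]

end Pool.Agent.Results.MP_57350d_an.Cyclic
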